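import Mathlib
set_option autoImplicit false

namespace Pool.Agent.Q199.Mink

open Finset

universe u

section Basic

variable {F : Type u} [Field F] {n : ℕ}

/-- The value `μ(x, y)` of the Minkowski form on `F^n`; the coordinate with index `0` is the time
coordinate. -/
def mu (x y : Fin n → F) : F :=
  ∑ i : Fin n, if i.val = 0 then (x i - y i) ^ 2 else -(x i - y i) ^ 2

/-- Lightlike relatedness. -/
def Lightlike (x y : Fin n → F) : Prop := mu x y = 0 ∧ x ≠ y

/-- The sign of a coordinate. -/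
def eps (F : Type u) [Field F] (n : ℕ) (i : Fin n) : F := if i.val = 0 then 1 else -1

/-- The Minkowski bilinear form. -/
def B (u v : Fin n → F) : F := ∑ i : Fin n, eps F n i * (u i * v i)

lemma mu_eq (x y : Fin n → F) : mu x y = B (x - y) (x - y) := by
  unfold mu B eps
  refine Finset.sum_congr rfl fun i _ => ?_
  split_ifs <;> simp <;> ring

lemma B_comm (u v : Fin n → F) : B u v = B v u := by
  unfold B; exact Finset.sum_congr rfl fun i _ => by ring

lemma B_add_left (u u' v : Fin n → F) : B (u + u') v = B u v + B u' v := by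
  unfold B; rw [← Finset.sum_add_distrib]
  exact Finset.sum_congr rfl fun i _ => by simp only [Pi.add_apply]; ring

lemma B_sub_left (u u' v : Fin n → F) : B (u - u') v = B u v - B u' v := by
  unfold B; rw [← Finset.sum_sub_distrib]
  exact Finset.sum_congr rfl fun i _ => by simp only [Pi.sub_apply]; ring

lemma B_smul_left (r : F) (u v : Fin n → F) : B (r • u) v = r * B u v := by
  unfold B; rw [Finset.mul_sum]
  exact Finset.sum_congr rfl fun i _ => by simp only [Pi.smul_apply, smul_eq_mul]; ring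

lemma B_neg_left (u v : Fin n → F) : B (-u) v = - B u v := by
  rw [← neg_one_smul F u, B_smul_left]; ring

lemma B_add_right (u v v' : Fin n → F) : B u (v + v') = B u v + B u v' := by
  rw [B_comm, B_add_left, B_comm v, B_comm v']

lemma B_sub_right (u v v' : Fin n → F) : B u (v - v') = B u v - B u v' := by
  rw [B_comm, B_sub_left, B_comm v, B_comm v']

lemma B_smul_right (r : F) (u v : Fin n → F) : B u (r • v) = r * B u v := by
  rw [B_comm, B_smul_left, B_comm v]

lemma B_neg_right (u v : Fin n → F) : B u (-v) = - B u v := by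
  rw [B_comm, B_neg_left, B_comm v]

lemma B_zero_left (v : Fin n → F) : B 0 v = 0 := by
  simp [B]

lemma B_zero_right (v : Fin n → F) : B v 0 = 0 := by
  simp [B]

lemma mu_comm (x y : Fin n → F) : mu x y = mu y x := by
  rw [mu_eq, mu_eq, ← neg_sub y x, B_neg_left, B_neg_right]; ring

lemma Lightlike.symm {x y : Fin n → F} (h : Lightlike x y) : Lightlike y x :=
  ⟨by rw [mu_comm]; exact h.1, h.2.symm⟩

end Basic

section Ordered

variable {F : Type u} [Field F] [LinearOrder F] [IsStrictOrderedRing F] {n : ℕ}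

/-- Vectors with time coordinate `0` are non-positive for the form. -/
lemma spatial (r : Fin n → F) (h0 : ∀ i : Fin n, i.val = 0 → r i = 0) :
    B r r ≤ 0 ∧ (B r r = 0 → r = 0) := by
  have key : B r r = - ∑ i : Fin n, (r i) ^ 2 := by
    unfold B eps
    rw [← Finset.sum_neg_distrib]
    refine Finset.sum_congr rfl fun i _ => ?_
    split_ifs with h
    · rw [h0 i h]; ring
    · ring
  have hnn : 0 ≤ ∑ i : Fin n, (r i) ^ 2 := Finset.sum_nonneg fun i _ => sq_nonneg _
  refine ⟨by rw [key]; linarith, fun h => ?_⟩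
  rw [key, neg_eq_zero] at h
  have := (Finset.sum_eq_zero_iff_of_nonneg (fun i _ => sq_nonneg (r i))).1 h
  funext i
  exact pow_eq_zero_iff (two_ne_zero) |>.1 (this i (Finset.mem_univ i))

variable [NeZero n]

/-- Key identity: if `k` is null and `d` is orthogonal to `k`, then
`k₀² B(d,d) = B(k₀ d - d₀ k, k₀ d - d₀ k)`. -/
lemma orth_null {k d : Fin n → F} (hk : B k k = 0) (hd : B d k = 0) :
    (k 0) ^ 2 * B d d = B (k 0 • d - d 0 • k) (k 0 • d - d 0 • k) := by
  simp only [B_sub_left, B_sub_right, B_smul_left, B_smul_right, hk, hd, B_comm k d]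
  ring

lemma null_time_ne {k : Fin n → F} (hk : B k k = 0) (hk0 : k ≠ 0) : k 0 ≠ 0 := by
  intro h
  refine hk0 ((spatial k ?_).2 hk)
  intro i hi
  have : i = 0 := Fin.ext (by simpa using hi)
  rw [this]; exact h

lemma comb_spatial (k d : Fin n → F) :
    ∀ i : Fin n, i.val = 0 → (k 0 • d - d 0 • k) i = 0 := by
  intro i hi
  have : i = 0 := Fin.ext (by simpa using hi)
  subst this
  simp [mul_comm]

/-- A vector orthogonal to a nonzero null vector is not timelike. -/
lemma orth_null_le {k d : Fin n → F} (hk : B k k = 0) (hk0 : k ≠ 0) (hd : B d k = 0) :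
    B d d ≤ 0 := by
  have h1 := orth_null hk hd
  have h2 := (spatial _ (comb_spatial k d)).1
  have h3 : 0 < (k 0) ^ 2 := by
    have := null_time_ne hk hk0
    positivity
  rw [← h1] at h2
  by_contra hlt
  push Not at hlt
  nlinarith [mul_pos h3 hlt]

/-- Orthogonal null vectors are parallel. -/
lemma null_parallel {k d : Fin n → F} (hk : B k k = 0) (hk0 : k ≠ 0) (hdd : B d d = 0)
    (hd : B d k = 0) : ∃ r : F, d = r • k := by
  have h1 := orth_null hk hd
  rw [hdd, mul_zero] at h1
  have h2 := (spatial _ (comb_spatial k d)).2 h1.symm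
  have h3 := null_time_ne hk hk0
  refine ⟨d 0 / k 0, ?_⟩
  have h4 : k 0 • d = d 0 • k := sub_eq_zero.1 h2
  calc d = (k 0)⁻¹ • (k 0 • d) := by rw [smul_smul, inv_mul_cancel₀ h3, one_smul]
    _ = _ := by rw [h4, smul_smul]; congr 1; field_simp

/-- Three mutually lightlike points are collinear. -/
lemma collinear {k d : Fin n → F} (hk : B k k = 0) (hk0 : k ≠ 0) (hdd : B d d = 0)
    (h : B (d - k) (d - k) = 0) : ∃ r : F, d = r • k := by
  refine null_parallel hk hk0 hdd ?_
  simp only [B_sub_left, B_sub_right, hk, hdd, B_comm k d] at h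
  have : (2 : F) * B d k = 0 := by linear_combination -h
  exact (mul_eq_zero.1 this).resolve_left two_ne_zero

/-- If no point of the null line `F k` is lightlike related or equal to `c`, then `c` is orthogonal
to `k` and not null. -/
lemma off_line {k c : Fin n → F} (hk : B k k = 0) (h : ∀ s : F, B (s • k - c) (s • k - c) ≠ 0) :
    B c k = 0 ∧ B c c ≠ 0 := by
  constructor
  · by_contra hc
    apply h (B c c / (2 * B c k))
    simp only [B_sub_left, B_sub_right, B_smul_left, B_smul_right, hk, B_comm k c]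
    field_simp
    ring
  · intro h0
    apply h 0
    simp only [zero_smul, zero_sub, B_neg_left, B_neg_right, h0, neg_zero]

/-- The regulus lemma. -/
lemma regulus {k p m c z : Fin n → F} {a : F} (ha : a ≠ 0) (hk : B k k = 0) (hk0 : k ≠ 0)
    (hc : B c k = 0) (hcc : B c c ≠ 0)
    (hp : B p p = 0) (hm : B m m = 0)
    (hz : B z k = 0)
    (hAB : B (a • k + p - m) (a • k + p - m) = 0) (hAB0 : a • k + p - m ≠ 0)
    (hBC : B (c - m) (c - m) = 0)
    (hAC : B (c - (a • k + p)) (c - (a • k + p)) = 0) (hAC0 : c - (a • k + p) ≠ 0) :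
    B m k ≠ 0 ∧ B p k ≠ 0 ∧
      B m z / B m k - B p z / B p k = - (2 * a * B c z) / B c c := by
  obtain ⟨ρ, hρ⟩ : ∃ ρ : F, c - m = ρ • (a • k + p - m) := by
    refine collinear hAB hAB0 hBC ?_
    rw [show c - m - (a • k + p - m) = c - (a • k + p) by abel]
    exact hAC
  have hc' : c = m + ρ • (a • k + p - m) := by rw [← hρ]; abel
  -- B m p
  have e1 : a * B p k - a * B m k - B p m = 0 := by
    have := hAB
    simp only [B_sub_left, B_sub_right, B_add_left, B_add_right, B_smul_left, B_smul_right, hk, hp,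
      hm, B_comm k p, B_comm k m, B_comm m p] at this
    have h2 : (2 : F) * (a * B p k - a * B m k - B p m) = 0 := by linear_combination this
    exact (mul_eq_zero.1 h2).resolve_left two_ne_zero
  have e2 : (1 - ρ) * B m k + ρ * B p k = 0 := by
    have := hc
    rw [hc'] at this
    simp only [B_sub_left, B_add_left, B_smul_left, hk] at this
    linear_combination this
  have e3 : B c c = 2 * ρ * a * B p k := by
    have h1 : B c c = 2 * B c m := by
      have := hBC
      simp only [B_sub_left, B_sub_right, hm, B_comm m c] at this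
      linear_combination this
    have h2 : B c m = ρ * (a * B m k + B p m) := by
      conv_lhs => rw [hc']
      simp only [B_sub_left, B_add_left, B_smul_left, hm, B_comm k m]
      ring
    rw [h1, h2]
    linear_combination (-2 * ρ) * e1
  have hρ0 : ρ ≠ 0 := by rintro rfl; apply hcc; rw [e3]; ring
  have hP : B p k ≠ 0 := by intro h; apply hcc; rw [e3, h]; ring
  have hM : B m k ≠ 0 := by
    intro h
    rw [h, mul_zero, zero_add] at e2
    exact (mul_ne_zero hρ0 hP) e2
  refine ⟨hM, hP, ?_⟩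
  have e4 : B c z = (1 - ρ) * B m z + ρ * B p z := by
    conv_lhs => rw [hc']
    simp only [B_sub_left, B_add_left, B_smul_left, B_comm k z, hz]
    ring
  rw [e4, e3]
  have hρP : ρ * B p k = -(1 - ρ) * B m k := by linear_combination e2
  field_simp
  linear_combination (B m z) * hρP


omit [LinearOrder F] [IsStrictOrderedRing F] [NeZero n] in
lemma B_sub_null {d k : Fin n → F} (hd : B d d = 0) (hk : B k k = 0) :
    B (d - k) (d - k) = -(2 * B d k) := by
  simp only [B_sub_left, B_sub_right, hd, hk, B_comm k d]; ring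

/-- The quantifier-free matrix of the formula. -/
def Good (x y w x' A A' C C' B1 B2 B3 B4 z v : Fin n → F) : Prop :=
  (Lightlike x w ∧ Lightlike w y ∧ Lightlike x x' ∧ Lightlike w x') ∧
  (Lightlike A x ∧ Lightlike A' x') ∧
  (Lightlike A C ∧ Lightlike A C' ∧ Lightlike A' C ∧ Lightlike A' C') ∧
  (C ≠ C' ∧ ¬ Lightlike C C') ∧
  (Lightlike B1 A ∧ Lightlike B1 C ∧ Lightlike B1 w) ∧
  (Lightlike B2 A' ∧ Lightlike B2 C' ∧ Lightlike B2 w ∧ Lightlike B1 B2) ∧
  (Lightlike B3 A ∧ Lightlike B3 C' ∧ Lightlike B3 w) ∧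
  (Lightlike B4 A' ∧ Lightlike B4 C ∧ Lightlike B4 w ∧ Lightlike B3 B4) ∧
  Lightlike z x' ∧
  ((v = w ∨ v = x ∨ (Lightlike v w ∧ Lightlike v x)) →
    v ≠ C ∧ ¬ Lightlike v C ∧ v ≠ C' ∧ ¬ Lightlike v C') ∧
  ((v = x' ∨ v = z ∨ (Lightlike v x' ∧ Lightlike v z)) → ¬ Lightlike v y)

lemma mu_sub (a b w : Fin n → F) : mu a b = B ((a - w) - (b - w)) ((a - w) - (b - w)) := by
  rw [mu_eq]; congr 1 <;> abel

/-- The points of the null line through `w` and `x`. -/
lemma on_line {w x : Fin n → F} (h : Lightlike x w) (s : F) :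
    w + s • (x - w) = w ∨ w + s • (x - w) = x ∨
      (Lightlike (w + s • (x - w)) w ∧ Lightlike (w + s • (x - w)) x) := by
  have hk : B (x - w) (x - w) = 0 := by rw [← mu_eq]; exact h.1
  by_cases h0 : s = 0
  · left; simp [h0]
  by_cases h1 : s = 1
  · right; left; simp [h1]
  right; right
  have hk0 : x - w ≠ 0 := sub_ne_zero.2 h.2
  refine ⟨⟨?_, ?_⟩, ⟨?_, ?_⟩⟩
  · rw [mu_eq, show w + s • (x - w) - w = s • (x - w) by abel, B_smul_left, B_smul_right, hk]
    ring
  · intro he
    have : s • (x - w) = 0 := by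
      have := congrArg (fun t => t - w) he
      simpa using this
    exact (smul_ne_zero h0 hk0) this
  · rw [mu_eq, show w + s • (x - w) - x = (s - 1) • (x - w) by rw [sub_smul, one_smul]; abel,
      B_smul_left, B_smul_right, hk]
    ring
  · intro he
    have : (s - 1) • (x - w) = 0 := by
      have := congrArg (fun t => t - x) he
      rw [sub_self] at this
      rw [sub_smul, one_smul, ← this]; abel
    exact (smul_ne_zero (sub_ne_zero.2 h1) hk0) this

/-- Soundness of the universal clause for spacelike relatedness. -/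
lemma spacelike_of {x' y z : Fin n → F} (hz : Lightlike z x')
    (h : ∀ v, (v = x' ∨ v = z ∨ (Lightlike v x' ∧ Lightlike v z)) → ¬ Lightlike v y) :
    mu x' y < 0 := by
  have hk : B (z - x') (z - x') = 0 := by rw [← mu_eq]; exact hz.1
  have hk0 : z - x' ≠ 0 := sub_ne_zero.2 hz.2
  have hl : ∀ s : F, ¬ Lightlike (x' + s • (z - x')) y := fun s => h _ (on_line hz s)
  -- y is not on the line
  have hy : ∀ s : F, x' + s • (z - x') ≠ y := by
    intro s hs
    apply hl (s + 1)
    refine ⟨?_, ?_⟩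
    · rw [mu_eq, ← hs, show x' + (s + 1) • (z - x') - (x' + s • (z - x')) = z - x' by
        rw [add_smul, one_smul]; abel]
      exact hk
    · intro he
      rw [← hs] at he
      have : z - x' = 0 := by
        calc z - x' = x' + (s + 1) • (z - x') - (x' + s • (z - x')) := by
              rw [add_smul, one_smul]; abel
          _ = 0 := by rw [he, sub_self]
      exact hk0 this
  have hm : ∀ s : F, B (s • (z - x') - (y - x')) (s • (z - x') - (y - x')) ≠ 0 := by
    intro s hs
    refine hl s ⟨?_, hy s⟩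
    rw [mu_eq, show x' + s • (z - x') - y = s • (z - x') - (y - x') by abel]
    exact hs
  obtain ⟨h1, h2⟩ := off_line hk hm
  have h3 := orth_null_le hk hk0 h1
  rw [mu_comm, mu_eq]
  exact lt_of_le_of_ne h3 h2

/-- Soundness: the matrix holds for all `v` only if `x` and `y` are timelike related. -/
theorem sound {x y w x' A A' C C' B1 B2 B3 B4 z : Fin n → F}
    (h : ∀ v, Good x y w x' A A' C C' B1 B2 B3 B4 z v) : 0 < mu x y := by
  obtain ⟨⟨hxw, hwy, hxx, hwx⟩, ⟨hAx, hAx'⟩, ⟨hAC, hAC', hA'C, hA'C'⟩, ⟨hCC, hnC⟩,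
    ⟨h1A, h1C, h1w⟩, ⟨h2A, h2C, h2w, h12⟩, ⟨h3A, h3C, h3w⟩, ⟨h4A, h4C, h4w, h34⟩, hz, -, -⟩ := h w
  have hsp : mu x' y < 0 := spacelike_of hz fun v => (h v).2.2.2.2.2.2.2.2.2.2
  have hu1 : ∀ v, (v = w ∨ v = x ∨ (Lightlike v w ∧ Lightlike v x)) →
      v ≠ C ∧ ¬ Lightlike v C ∧ v ≠ C' ∧ ¬ Lightlike v C' :=
    fun v => (h v).2.2.2.2.2.2.2.2.2.1
  clear h
  set k := x - w with hkdef
  have hk : B k k = 0 := by rw [hkdef, ← mu_eq]; exact hxw.1
  have hk0 : k ≠ 0 := sub_ne_zero.2 hxw.2
  have hc : B (C - w) k = 0 ∧ B (C - w) (C - w) ≠ 0 := by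
    refine off_line hk fun s hs => ?_
    have := hu1 _ (on_line hxw s)
    refine this.2.1 ⟨?_, this.1⟩
    rw [mu_eq, show w + s • (x - w) - C = s • (x - w) - (C - w) by abel]
    exact hs
  have hc' : B (C' - w) k = 0 ∧ B (C' - w) (C' - w) ≠ 0 := by
    refine off_line hk fun s hs => ?_
    have := hu1 _ (on_line hxw s)
    refine this.2.2.2 ⟨?_, this.2.2.1⟩
    rw [mu_eq, show w + s • (x - w) - C' = s • (x - w) - (C' - w) by abel]
    exact hs
  -- x' = w + r k
  obtain ⟨r, hr⟩ : ∃ r : F, x' - w = r • k := by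
    refine collinear hk hk0 ?_ ?_
    · rw [← mu_eq]; exact hwx.symm.1
    · rw [show x' - w - k = x' - x by rw [hkdef]; abel, ← mu_eq]; exact hxx.symm.1
  have hr0 : r ≠ 0 := by
    rintro rfl
    rw [zero_smul, sub_eq_zero] at hr
    exact hwx.2 hr.symm
  obtain ⟨t, ht⟩ : ∃ t : F, B2 - w = t • (B1 - w) := by
    refine collinear (by rw [← mu_eq]; exact h1w.1) (sub_ne_zero.2 h1w.2)
      (by rw [← mu_eq]; exact h2w.1) ?_
    rw [show B2 - w - (B1 - w) = B2 - B1 by abel, ← mu_eq]; exact h12.symm.1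
  have ht0 : t ≠ 0 := by
    rintro rfl
    rw [zero_smul, sub_eq_zero] at ht
    exact h2w.2 ht
  obtain ⟨t', ht'⟩ : ∃ t' : F, B4 - w = t' • (B3 - w) := by
    refine collinear (by rw [← mu_eq]; exact h3w.1) (sub_ne_zero.2 h3w.2)
      (by rw [← mu_eq]; exact h4w.1) ?_
    rw [show B4 - w - (B3 - w) = B4 - B3 by abel, ← mu_eq]; exact h34.symm.1
  have ht0' : t' ≠ 0 := by
    rintro rfl
    rw [zero_smul, sub_eq_zero] at ht'
    exact h4w.2 ht'
  set c := C - w with hcdef
  set c' := C' - w with hcdef'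
  set Z := (B c c)⁻¹ • c - (B c' c')⁻¹ • c' with hZdef
  have hZ : B Z k = 0 := by
    rw [hZdef]; simp only [B_sub_left, B_smul_left, hc.1, hc'.1]; ring
  have eA : (1 : F) • k + (A - x) = A - w := by rw [one_smul, hkdef]; abel
  have eA' : r • k + (A' - x') = A' - w := by rw [← hr]; abel
  -- the four reguli
  have R1 := regulus (k := k) (p := A - x) (m := B1 - w) (c := c) (z := Z) (a := 1) one_ne_zero
    hk hk0 hc.1 hc.2 (by rw [← mu_eq]; exact hAx.1) (by rw [← mu_eq]; exact h1w.1) hZ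
    (by rw [eA, show A - w - (B1 - w) = A - B1 by abel, ← mu_eq]; exact h1A.symm.1)
    (by rw [eA, show A - w - (B1 - w) = A - B1 by abel]; exact sub_ne_zero.2 h1A.symm.2)
    (by rw [hcdef, show C - w - (B1 - w) = C - B1 by abel, ← mu_eq]; exact h1C.symm.1)
    (by rw [eA, hcdef, show C - w - (A - w) = C - A by abel, ← mu_eq]; exact hAC.symm.1)
    (by rw [eA, hcdef, show C - w - (A - w) = C - A by abel]; exact sub_ne_zero.2 hAC.symm.2)
  have R3 := regulus (k := k) (p := A - x) (m := B3 - w) (c := c') (z := Z) (a := 1) one_ne_zero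
    hk hk0 hc'.1 hc'.2 (by rw [← mu_eq]; exact hAx.1) (by rw [← mu_eq]; exact h3w.1) hZ
    (by rw [eA, show A - w - (B3 - w) = A - B3 by abel, ← mu_eq]; exact h3A.symm.1)
    (by rw [eA, show A - w - (B3 - w) = A - B3 by abel]; exact sub_ne_zero.2 h3A.symm.2)
    (by rw [hcdef', show C' - w - (B3 - w) = C' - B3 by abel, ← mu_eq]; exact h3C.symm.1)
    (by rw [eA, hcdef', show C' - w - (A - w) = C' - A by abel, ← mu_eq]; exact hAC'.symm.1)
    (by rw [eA, hcdef', show C' - w - (A - w) = C' - A by abel]; exact sub_ne_zero.2 hAC'.symm.2)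
  have R2 := regulus (k := k) (p := A' - x') (m := B4 - w) (c := c) (z := Z) (a := r) hr0
    hk hk0 hc.1 hc.2 (by rw [← mu_eq]; exact hAx'.1) (by rw [← mu_eq]; exact h4w.1) hZ
    (by rw [eA', show A' - w - (B4 - w) = A' - B4 by abel, ← mu_eq]; exact h4A.symm.1)
    (by rw [eA', show A' - w - (B4 - w) = A' - B4 by abel]; exact sub_ne_zero.2 h4A.symm.2)
    (by rw [hcdef, show C - w - (B4 - w) = C - B4 by abel, ← mu_eq]; exact h4C.symm.1)
    (by rw [eA', hcdef, show C - w - (A' - w) = C - A' by abel, ← mu_eq]; exact hA'C.symm.1)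
    (by rw [eA', hcdef, show C - w - (A' - w) = C - A' by abel]; exact sub_ne_zero.2 hA'C.symm.2)
  have R4 := regulus (k := k) (p := A' - x') (m := B2 - w) (c := c') (z := Z) (a := r) hr0
    hk hk0 hc'.1 hc'.2 (by rw [← mu_eq]; exact hAx'.1) (by rw [← mu_eq]; exact h2w.1) hZ
    (by rw [eA', show A' - w - (B2 - w) = A' - B2 by abel, ← mu_eq]; exact h2A.symm.1)
    (by rw [eA', show A' - w - (B2 - w) = A' - B2 by abel]; exact sub_ne_zero.2 h2A.symm.2)
    (by rw [hcdef', show C' - w - (B2 - w) = C' - B2 by abel, ← mu_eq]; exact h2C.symm.1)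
    (by rw [eA', hcdef', show C' - w - (A' - w) = C' - A' by abel, ← mu_eq]; exact hA'C'.symm.1)
    (by rw [eA', hcdef', show C' - w - (A' - w) = C' - A' by abel]
        exact sub_ne_zero.2 hA'C'.symm.2)
  have f2 : B (B4 - w) Z / B (B4 - w) k = B (B3 - w) Z / B (B3 - w) k := by
    rw [ht', B_smul_left, B_smul_left, mul_div_mul_left _ _ ht0']
  have f1 : B (B2 - w) Z / B (B2 - w) k = B (B1 - w) Z / B (B1 - w) k := by
    rw [ht, B_smul_left, B_smul_left, mul_div_mul_left _ _ ht0]
  have E1 := R1.2.2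
  have E3 := R3.2.2
  have E2 := R2.2.2
  have E4 := R4.2.2
  rw [f2] at E2
  rw [f1] at E4
  have hcomb : (1 + r) * (B c Z / B c c - B c' Z / B c' c') = 0 := by
    have : (-(2 * 1 * B c Z) / B c c) - (-(2 * 1 * B c' Z) / B c' c')
        + ((-(2 * r * B c Z) / B c c) - (-(2 * r * B c' Z) / B c' c')) = 0 := by
      rw [← E1, ← E3, ← E2, ← E4]; ring
    have h2 : (2 : F) * ((1 + r) * (B c Z / B c c - B c' Z / B c' c')) = 0 := by
      linear_combination -this
    exact (mul_eq_zero.1 h2).resolve_left two_ne_zero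
  have hZZ : B c Z / B c c - B c' Z / B c' c' = B Z Z := by
    conv_rhs => rw [hZdef, B_sub_left, B_smul_left, B_smul_left]
    rw [div_eq_inv_mul, div_eq_inv_mul]
  have hZne : B Z Z ≠ 0 := by
    have e : B Z Z = B (C - C') (C - C') / (B c c * B c' c') := by
      have e1 : C - C' = c - c' := by rw [hcdef, hcdef']; abel
      rw [e1, hZdef]
      simp only [B_sub_left, B_sub_right, B_smul_left, B_smul_right, B_comm c' c]
      have h1 := hc.2
      have h2 := hc'.2
      field_simp
      ring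
    rw [e]
    refine div_ne_zero ?_ (mul_ne_zero hc.2 hc'.2)
    intro h0
    exact hnC ⟨by rw [mu_eq]; exact h0, hCC⟩
  rw [hZZ] at hcomb
  have hr1 : r = -1 := by
    have := (mul_eq_zero.1 hcomb).resolve_right hZne
    linear_combination this
  -- conclusion
  have hwy' : B (w - y) (w - y) = 0 := by rw [← mu_eq]; exact hwy.1
  have e1 : mu x y = 2 * B (w - y) k := by
    rw [mu_eq, show x - y = (w - y) + k by rw [hkdef]; abel]
    simp only [B_add_left, B_add_right, hwy', hk, B_comm k (w - y)]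
    ring
  have e2 : mu x' y = -(2 * B (w - y) k) := by
    rw [mu_eq, show x' - y = (w - y) - k by
      rw [show x' - y = (w - y) + (x' - w) by abel, hr, hr1]; simp [sub_eq_add_neg]]
    exact B_sub_null hwy' hk
  rw [e1]; rw [e2] at hsp; linarith


/-- Converse of `on_line`. -/
lemma of_on_line {w x v : Fin n → F} (h : Lightlike x w)
    (hv : v = w ∨ v = x ∨ (Lightlike v w ∧ Lightlike v x)) : ∃ s : F, v = w + s • (x - w) := by
  rcases hv with rfl | rfl | ⟨h1, h2⟩
  · exact ⟨0, by simp⟩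
  · exact ⟨1, by simp⟩
  · obtain ⟨s, hs⟩ : ∃ s : F, v - w = s • (x - w) := by
      refine collinear (by rw [← mu_eq]; exact h.1) (sub_ne_zero.2 h.2)
        (by rw [← mu_eq]; exact h1.1) ?_
      rw [show v - w - (x - w) = v - x by abel, ← mu_eq]; exact h2.1
    exact ⟨s, by rw [← hs]; abel⟩

omit [LinearOrder F] [IsStrictOrderedRing F] [NeZero n] in
lemma B_single (i : Fin n) (v : Fin n → F) : B (Pi.single i 1) v = eps F n i * v i := by
  classical
  unfold B
  rw [Finset.sum_eq_single i]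
  · simp
  · intro j _ hj; simp [Pi.single_eq_of_ne hj]
  · intro h; exact absurd (Finset.mem_univ i) h

/-- There is a null frame in dimension at least three. -/
lemma exists_frame (hn : 3 ≤ n) : ∃ K m e : Fin n → F, K ≠ 0 ∧ B K K = 0 ∧ B m m = 0 ∧
    B K m = 1 / 2 ∧ B e e = -1 ∧ B K e = 0 ∧ B m e = 0 := by
  classical
  let i0 : Fin n := ⟨0, by omega⟩
  let i1 : Fin n := ⟨1, by omega⟩
  let i2 : Fin n := ⟨2, by omega⟩
  have h01 : i0 ≠ i1 := by intro h; simp [i0, i1] at h
  have h02 : i0 ≠ i2 := by intro h; simp [i0, i2] at h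
  have h12 : i1 ≠ i2 := by intro h; simp [i1, i2] at h
  have e0 : eps F n i0 = 1 := by simp [eps, i0]
  have e1 : eps F n i1 = -1 := by simp [eps, i1]
  have e2 : eps F n i2 = -1 := by simp [eps, i2]
  have b00 : B (Pi.single i0 1 : Fin n → F) (Pi.single i0 1) = 1 := by rw [B_single, e0]; simp
  have b11 : B (Pi.single i1 1 : Fin n → F) (Pi.single i1 1) = -1 := by rw [B_single, e1]; simp
  have b22 : B (Pi.single i2 1 : Fin n → F) (Pi.single i2 1) = -1 := by rw [B_single, e2]; simp
  have b01 : B (Pi.single i0 1 : Fin n → F) (Pi.single i1 1) = 0 := by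
    rw [B_single]; simp [h01]
  have b02 : B (Pi.single i0 1 : Fin n → F) (Pi.single i2 1) = 0 := by
    rw [B_single]; simp [h02]
  have b12 : B (Pi.single i1 1 : Fin n → F) (Pi.single i2 1) = 0 := by
    rw [B_single]; simp [h12]
  have b10 : B (Pi.single i1 1 : Fin n → F) (Pi.single i0 1) = 0 := by rw [B_comm]; exact b01
  refine ⟨Pi.single i0 1 + Pi.single i1 1, (1 / 4 : F) • (Pi.single i0 1 - Pi.single i1 1),
    Pi.single i2 1, ?_, ?_, ?_, ?_, b22, ?_, ?_⟩
  · intro h
    have := congrFun h i0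
    simp [h01] at this
  · simp only [B_add_left, B_add_right, b00, b11, b01, b10]; ring
  · simp only [B_sub_left, B_sub_right, B_smul_left, B_smul_right, b00, b11, b01, b10]; ring
  · simp only [B_add_left, B_sub_right, B_smul_right, b00, b11, b01, b10]; ring
  · simp only [B_add_left, b02, b12]; ring
  · simp only [B_sub_left, B_smul_left, b02, b12]; ring

/-- A spacelike vector is orthogonal to some null vector in dimension at least three. -/
lemma exists_null_orth (hn : 3 ≤ n) (hE : ∀ a : F, 0 ≤ a → ∃ b : F, b * b = a)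
    {d : Fin n → F} (hd : B d d < 0) : ∃ k : Fin n → F, k ≠ 0 ∧ B k k = 0 ∧ B d k = 0 := by
  classical
  let i0 : Fin n := ⟨0, by omega⟩
  let i1 : Fin n := ⟨1, by omega⟩
  let i2 : Fin n := ⟨2, by omega⟩
  have h01 : i0 ≠ i1 := by intro h; simp [i0, i1] at h
  have h02 : i0 ≠ i2 := by intro h; simp [i0, i2] at h
  have h12 : i1 ≠ i2 := by intro h; simp [i1, i2] at h
  have e0 : eps F n i0 = 1 := by simp [eps, i0]
  have e1 : eps F n i1 = -1 := by simp [eps, i1]
  have e2 : eps F n i2 = -1 := by simp [eps, i2]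
  set T : Fin n → F := Pi.single i0 1 with hT
  have bTT : B T T = 1 := by rw [hT, B_single, e0]; simp
  have bTd : B T d = d i0 := by rw [hT, B_single, e0, one_mul]
  -- a unit spatial vector orthogonal to `d`
  obtain ⟨e, hee, hTe, hde⟩ : ∃ e : Fin n → F, B e e = -1 ∧ B T e = 0 ∧ B d e = 0 := by
    by_cases hz : d i1 = 0
    · refine ⟨Pi.single i1 1, by rw [B_single, e1]; simp, by rw [hT, B_single]; simp [h01], ?_⟩
      rw [B_comm, B_single, hz, mul_zero]
    · obtain ⟨h, hh⟩ := hE (d i1 ^ 2 + d i2 ^ 2) (by positivity)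
      have hpos : 0 < d i1 ^ 2 + d i2 ^ 2 := by positivity
      have hh0 : h ≠ 0 := by rintro rfl; rw [← hh, mul_zero] at hpos; exact lt_irrefl _ hpos
      have b11 : B (Pi.single i1 1 : Fin n → F) (Pi.single i1 1) = -1 := by
        rw [B_single, e1]; simp
      have b22 : B (Pi.single i2 1 : Fin n → F) (Pi.single i2 1) = -1 := by
        rw [B_single, e2]; simp
      have b12 : B (Pi.single i1 1 : Fin n → F) (Pi.single i2 1) = 0 := by
        rw [B_single]; simp [h12]
      have b21 : B (Pi.single i2 1 : Fin n → F) (Pi.single i1 1) = 0 := by rw [B_comm]; exact b12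
      refine ⟨(d i2 / h) • Pi.single i1 1 - (d i1 / h) • Pi.single i2 1, ?_, ?_, ?_⟩
      · simp only [B_sub_left, B_sub_right, B_smul_left, B_smul_right, b11, b22, b12, b21]
        field_simp
        linear_combination hh
      · simp only [B_sub_right, B_smul_right, hT]
        rw [B_single, B_single]; simp [h01, h02]
      · rw [B_comm, B_sub_left, B_smul_left, B_smul_left, B_single, B_single, e1, e2]; ring
  set S : F := d i0 ^ 2 - B d d with hS
  have hSpos : 0 < S := by rw [hS]; nlinarith [sq_nonneg (d i0)]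
  have hc : 0 ≤ 1 - d i0 ^ 2 / S := by
    rw [sub_nonneg, div_le_one hSpos, hS]; linarith
  obtain ⟨c, hcc⟩ := hE _ hc
  refine ⟨T + (d i0 / S) • (d - d i0 • T) + c • e, ?_, ?_, ?_⟩
  · intro h
    have h1 : B T (T + (d i0 / S) • (d - d i0 • T) + c • e) = 0 := by rw [h, B_zero_right]
    simp only [B_add_right, B_smul_right, B_sub_right, bTT, bTd, hTe] at h1
    apply (one_ne_zero : (1 : F) ≠ 0)
    linear_combination h1
  · have bdT : B d T = d i0 := by rw [B_comm, bTd]
    have beT : B e T = 0 := by rw [B_comm, hTe]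
    have bed : B e d = 0 := by rw [B_comm, hde]
    simp only [B_add_left, B_add_right, B_smul_left, B_smul_right, B_sub_left, B_sub_right, bTT,
      bTd, hTe, hee, hde, bdT, beT, bed]
    have hBdd : B d d = d i0 ^ 2 - S := by rw [hS]; ring
    rw [hBdd]
    have : c * c = 1 - d i0 ^ 2 / S := hcc
    have hS0 : S ≠ 0 := hSpos.ne'
    field_simp at this ⊢
    linear_combination (-S) * this
  · have bdT : B d T = d i0 := by rw [B_comm, bTd]
    simp only [B_add_right, B_smul_right, B_sub_right, bdT, hde]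
    have hBdd : B d d = d i0 ^ 2 - S := by rw [hS]; ring
    rw [hBdd]
    have hS0 : S ≠ 0 := hSpos.ne'
    field_simp
    ring

/-- Completeness: witnesses exist for timelike related points. -/
theorem complete (hn : 3 ≤ n) (hE : ∀ a : F, 0 ≤ a → ∃ b : F, b * b = a)
    {x y : Fin n → F} (hxy : 0 < mu x y) :
    ∃ w x' A A' C C' B1 B2 B3 B4 z : Fin n → F,
      ∀ v, Good x y w x' A A' C C' B1 B2 B3 B4 z v := by
  obtain ⟨K, m, e, hK0, hKK, hmm, hKm, hee, hKe, hme⟩ := exists_frame (F := F) (n := n) hn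
  have hd : 0 < B (x - y) (x - y) := by rw [← mu_eq]; exact hxy
  have hdK : B (x - y) K ≠ 0 := by
    intro h0
    exact absurd (orth_null_le hKK hK0 h0) (not_le.2 hd)
  set t : F := B (x - y) (x - y) / (2 * B (x - y) K) with ht
  have ht0 : t ≠ 0 := div_ne_zero hd.ne' (mul_ne_zero two_ne_zero hdK)
  set w : Fin n → F := x - t • K with hw
  have hwy0 : B (w - y) (w - y) = 0 := by
    rw [hw, show x - t • K - y = (x - y) - t • K by abel]
    generalize x - y = d at *
    simp only [B_sub_left, B_sub_right, B_smul_left, B_smul_right, hKK, B_comm K d]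
    rw [ht]; field_simp; ring
  -- combinations
  have hmK : B m K = 1 / 2 := by rw [B_comm]; exact hKm
  have heK : B e K = 0 := by rw [B_comm]; exact hKe
  have hem : B e m = 0 := by rw [B_comm]; exact hme
  set V : F → F → F → (Fin n → F) := fun a b c => w + (a • K + b • m + c • e) with hV
  have hmu : ∀ a b c a' b' c' : F, mu (V a b c) (V a' b' c') =
      (a - a') * (b - b') - (c - c') ^ 2 := by
    intro a b c a' b' c'
    rw [mu_eq, show V a b c - V a' b' c' = (a - a') • K + (b - b') • m + (c - c') • e by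
      simp only [hV, sub_smul]; abel]
    simp only [B_add_left, B_add_right, B_smul_left, B_smul_right, hKK, hmm, hKm, hee, hKe, hme,
      hmK, heK, hem]
    ring
  have hVa : ∀ a b c a' b' c' : F, V a b c = V a' b' c' → a = a' ∧ b = b' ∧ c = c' := by
    intro a b c a' b' c' h
    have h0 : (a - a') • K + (b - b') • m + (c - c') • e = 0 := by
      have : V a b c - V a' b' c' = 0 := by rw [h, sub_self]
      rw [← this]; simp only [hV, sub_smul]; abel
    have h1 : B ((a - a') • K + (b - b') • m + (c - c') • e) K = 0 := by rw [h0, B_zero_left]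
    have h2 : B ((a - a') • K + (b - b') • m + (c - c') • e) m = 0 := by rw [h0, B_zero_left]
    have h3 : B ((a - a') • K + (b - b') • m + (c - c') • e) e = 0 := by rw [h0, B_zero_left]
    simp only [B_add_left, B_smul_left, hKK, hmm, hKm, hee, hKe, hme, hmK, heK, hem] at h1 h2 h3
    exact ⟨by linear_combination 2 * h2, by linear_combination 2 * h1, by linear_combination -h3⟩
  have hL : ∀ a b c a' b' c' : F, (a - a') * (b - b') = (c - c') ^ 2 →
      (a ≠ a' ∨ b ≠ b' ∨ c ≠ c') → Lightlike (V a b c) (V a' b' c') := by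
    intro a b c a' b' c' h1 h2
    refine ⟨by rw [hmu, h1, sub_self], fun h => ?_⟩
    obtain ⟨ha, hb, hc⟩ := hVa _ _ _ _ _ _ h
    rcases h2 with h2 | h2 | h2
    · exact h2 ha
    · exact h2 hb
    · exact h2 hc
  have hLw : ∀ a b c : F, a * b = c ^ 2 → a ≠ 0 → Lightlike (V a b c) w := by
    intro a b c h1 h2
    have : Lightlike (V a b c) (V 0 0 0) := hL _ _ _ _ _ _ (by linear_combination h1) (Or.inl h2)
    rwa [show V 0 0 0 = w by simp [hV]] at this
  have hx : x = V t 0 0 := by simp [hV, hw]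
  have hwV : w = V 0 0 0 := by simp [hV]
  have hxw : Lightlike x w := by
    rw [hx]; conv_rhs => rw [hwV]
    exact hL _ _ _ _ _ _ (by ring) (Or.inl ht0)
  have hwyL : Lightlike w y := by
    refine ⟨by rw [mu_eq]; exact hwy0, fun h => ?_⟩
    have : mu x y = 0 := by rw [← h]; exact hxw.1
    rw [this] at hxy; exact lt_irrefl _ hxy
  set x' : Fin n → F := V (-t) 0 0 with hx'
  have hwyK : mu x y = 2 * (t * B (w - y) K) := by
    rw [mu_eq, show x - y = (w - y) + t • K by rw [hw]; abel]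
    simp only [B_add_left, B_add_right, hwy0, B_smul_left, B_smul_right, hKK, B_comm K (w - y)]
    ring
  have hx'y : B (x' - y) (x' - y) < 0 := by
    have : B (x' - y) (x' - y) = -(2 * (t * B (w - y) K)) := by
      rw [show x' - y = (w - y) - t • K by simp [hx', hV]; abel,
        B_sub_null hwy0 (by rw [B_smul_left, B_smul_right, hKK]; ring), B_smul_right]
    rw [this]; rw [hwyK] at hxy; linarith
  obtain ⟨k', hk'0, hk'k', hdk'⟩ := exists_null_orth hn hE hx'y
  have hz : Lightlike (x' + k') x' := by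
    refine ⟨by rw [mu_eq, add_sub_cancel_left]; exact hk'k', fun h => hk'0 ?_⟩
    have := congrArg (fun u => u - x') h
    simpa using this
  refine ⟨w, x', V t t⁻¹ 0, V (-t) (-t⁻¹) 0, V 0 0 1, V 0 0 (-1),
    V (t / 2) (t⁻¹ / 2) (1 / 2), V (-t / 2) (-t⁻¹ / 2) (-1 / 2),
    V (t / 2) (t⁻¹ / 2) (-1 / 2), V (-t / 2) (-t⁻¹ / 2) (1 / 2), x' + k', fun v => ?_⟩
  have h2 : (2 : F) ≠ 0 := two_ne_zero
  have hti : t⁻¹ ≠ 0 := inv_ne_zero ht0
  have hC : ∀ (s : F) (σ : F), σ ^ 2 = 1 → V s 0 0 ≠ V 0 0 σ ∧ ¬ Lightlike (V s 0 0) (V 0 0 σ) := by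
    intro s σ hσ
    have hmuv : mu (V s 0 0) (V 0 0 σ) = -1 := by rw [hmu]; linear_combination -hσ
    refine ⟨fun h => ?_, fun h => ?_⟩
    · obtain ⟨-, -, h3⟩ := hVa _ _ _ _ _ _ h
      rw [← h3] at hσ; norm_num at hσ
    · rw [h.1] at hmuv; norm_num at hmuv
  refine ⟨⟨hxw, hwyL, ?_, ?_⟩, ⟨?_, ?_⟩, ⟨?_, ?_, ?_, ?_⟩, ⟨?_, ?_⟩, ⟨?_, ?_, ?_⟩, ⟨?_, ?_, ?_, ?_⟩,
    ⟨?_, ?_, ?_⟩, ⟨?_, ?_, ?_, ?_⟩, hz, ?_, ?_⟩
  · rw [hx, hx']; exact hL _ _ _ _ _ _ (by ring) (Or.inl (by
      intro h; apply ht0; have : (2 : F) * t = 0 := by linear_combination h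
      exact (mul_eq_zero.1 this).resolve_left h2))
  · conv_lhs => rw [hwV]
    exact hL _ _ _ _ _ _ (by ring) (Or.inl (by simpa using ht0))
  · rw [hx]; exact hL _ _ _ _ _ _ (by ring) (Or.inr (Or.inl hti))
  · exact hL _ _ _ _ _ _ (by ring) (Or.inr (Or.inl (neg_ne_zero.2 hti)))
  · exact hL _ _ _ _ _ _ (by field_simp <;> ring) (Or.inl ht0)
  · exact hL _ _ _ _ _ _ (by field_simp <;> ring) (Or.inl ht0)
  · exact hL _ _ _ _ _ _ (by field_simp <;> ring) (Or.inl (neg_ne_zero.2 ht0))
  · exact hL _ _ _ _ _ _ (by field_simp <;> ring) (Or.inl (neg_ne_zero.2 ht0))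
  · intro h
    obtain ⟨-, -, h3⟩ := hVa _ _ _ _ _ _ h
    norm_num at h3
  · intro h
    have := h.1
    rw [hmu] at this; norm_num at this
  · exact hL _ _ _ _ _ _ (by field_simp <;> ring) (Or.inl fun h => ht0 (by linear_combination -2 * h))
  · exact hL _ _ _ _ _ _ (by field_simp <;> ring)
      (Or.inl fun h => ht0 (by linear_combination 2 * h))
  · exact hLw _ _ _ (by field_simp <;> ring) (fun h => ht0 (by linear_combination 2 * h))
  · exact hL _ _ _ _ _ _ (by field_simp <;> ring) (Or.inl fun h => ht0 (by linear_combination 2 * h))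
  · exact hL _ _ _ _ _ _ (by field_simp <;> ring)
      (Or.inl fun h => ht0 (by linear_combination -2 * h))
  · exact hLw _ _ _ (by field_simp <;> ring) (fun h => ht0 (by linear_combination -2 * h))
  · exact hL _ _ _ _ _ _ (by field_simp <;> ring) (Or.inl fun h => ht0 (by linear_combination h))
  · exact hL _ _ _ _ _ _ (by field_simp <;> ring) (Or.inl fun h => ht0 (by linear_combination -2 * h))
  · exact hL _ _ _ _ _ _ (by field_simp <;> ring)
      (Or.inl fun h => ht0 (by linear_combination 2 * h))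
  · exact hLw _ _ _ (by field_simp <;> ring) (fun h => ht0 (by linear_combination 2 * h))
  · exact hL _ _ _ _ _ _ (by field_simp <;> ring) (Or.inl fun h => ht0 (by linear_combination 2 * h))
  · exact hL _ _ _ _ _ _ (by field_simp <;> ring)
      (Or.inl fun h => ht0 (by linear_combination -2 * h))
  · exact hLw _ _ _ (by field_simp <;> ring) (fun h => ht0 (by linear_combination -2 * h))
  · exact hL _ _ _ _ _ _ (by field_simp <;> ring) (Or.inl fun h => ht0 (by linear_combination h))
  · intro hv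
    obtain ⟨s, hs⟩ := of_on_line hxw hv
    have hvV : v = V (s * t) 0 0 := by
      rw [hs, show x - w = t • K by rw [hw]; abel, smul_smul]; simp [hV]
    rw [hvV]
    exact ⟨(hC _ 1 (by ring)).1, (hC _ 1 (by ring)).2, (hC _ (-1) (by ring)).1,
      (hC _ (-1) (by ring)).2⟩
  · intro hv hvy
    obtain ⟨s, hs⟩ := of_on_line hz hv
    have h1 := hvy.1
    rw [mu_eq, hs, add_sub_cancel_left, show x' + s • k' - y = (x' - y) + s • k' by abel] at h1
    simp only [B_add_left, B_add_right, B_smul_left, B_smul_right, hk'k', hdk',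
      B_comm k' (x' - y)] at h1
    rw [show B (x' - y) (x' - y) = 0 by linear_combination h1] at hx'y
    exact lt_irrefl _ hx'y

end Ordered

section Formulas

open FirstOrder FirstOrder.Language

/-- The relation symbols of the language with one binary relation symbol `λ`. -/
inductive LamRel : ℕ → Type
  | lam : LamRel 2

/-- The first-order language with one binary relation symbol and nothing else. -/
def lamLang : FirstOrder.Language.{0, 0} := ⟨fun _ => Empty, LamRel⟩

/-- The structure `(F^n, λ)`. -/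
def lamStructure (F : Type u) [Field F] (n : ℕ) : lamLang.Structure (Fin n → F) where
  funMap := fun f => f.elim
  RelMap := fun r v => match r with
    | LamRel.lam => Lightlike (v 0) (v 1)

/-- A formula is existential-universal if it is a block of existential quantifiers followed by a
block of universal quantifiers followed by a quantifier-free formula. -/
inductive IsExistsForall {L : FirstOrder.Language.{0, 0}} {α : Type} :
    ∀ {l : ℕ}, L.BoundedFormula α l → Prop
  | of_isUniversal {l : ℕ} {φ : L.BoundedFormula α l} (h : φ.IsUniversal) : IsExistsForall φ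
  | ex {l : ℕ} {φ : L.BoundedFormula α (l + 1)} (h : IsExistsForall φ) : IsExistsForall φ.ex

/-- The relation symbol. -/
def lamSym : lamLang.Relations 2 := LamRel.lam

/-- Atomic formula `s λ t`. -/
def RR {l : ℕ} (s t : lamLang.Term (Fin 2 ⊕ Fin l)) : lamLang.BoundedFormula (Fin 2) l :=
  Relations.boundedFormula₂ lamSym s t

abbrev fv (i : Fin 2) {l : ℕ} : lamLang.Term (Fin 2 ⊕ Fin l) := Term.var (Sum.inl i)
abbrev bv {l : ℕ} (i : Fin l) : lamLang.Term (Fin 2 ⊕ Fin l) := Term.var (Sum.inr i)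

/-- The quantifier-free matrix as a first-order formula. -/
def matrixF : lamLang.BoundedFormula (Fin 2) 12 :=
  (RR (fv 0) (bv 0) ⊓ (RR (bv 0) (fv 1) ⊓ (RR (fv 0) (bv 1) ⊓ RR (bv 0) (bv 1)))) ⊓
  ((RR (bv 2) (fv 0) ⊓ RR (bv 3) (bv 1)) ⊓
  ((RR (bv 2) (bv 4) ⊓ (RR (bv 2) (bv 5) ⊓ (RR (bv 3) (bv 4) ⊓ RR (bv 3) (bv 5)))) ⊓
  ((((bv 4).bdEqual (bv 5)).not ⊓ (RR (bv 4) (bv 5)).not) ⊓
  ((RR (bv 6) (bv 2) ⊓ (RR (bv 6) (bv 4) ⊓ RR (bv 6) (bv 0))) ⊓
  ((RR (bv 7) (bv 3) ⊓ (RR (bv 7) (bv 5) ⊓ (RR (bv 7) (bv 0) ⊓ RR (bv 6) (bv 7)))) ⊓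
  ((RR (bv 8) (bv 2) ⊓ (RR (bv 8) (bv 5) ⊓ RR (bv 8) (bv 0))) ⊓
  ((RR (bv 9) (bv 3) ⊓ (RR (bv 9) (bv 4) ⊓ (RR (bv 9) (bv 0) ⊓ RR (bv 8) (bv 9)))) ⊓
  (RR (bv 10) (bv 1) ⊓
  ((((bv 11).bdEqual (bv 0) ⊔ ((bv 11).bdEqual (fv 0) ⊔
      (RR (bv 11) (bv 0) ⊓ RR (bv 11) (fv 0)))).imp
    (((bv 11).bdEqual (bv 4)).not ⊓ ((RR (bv 11) (bv 4)).not ⊓
      (((bv 11).bdEqual (bv 5)).not ⊓ (RR (bv 11) (bv 5)).not)))) ⊓
  (((bv 11).bdEqual (bv 1) ⊔ ((bv 11).bdEqual (bv 10) ⊔
      (RR (bv 11) (bv 1) ⊓ RR (bv 11) (bv 10)))).imp (RR (bv 11) (fv 1)).not))))))))))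

lemma RR_qf {l : ℕ} (s t : lamLang.Term (Fin 2 ⊕ Fin l)) : (RR s t).IsQF :=
  (BoundedFormula.IsAtomic.rel _ _).isQF

lemma eq_qf {l : ℕ} (s t : lamLang.Term (Fin 2 ⊕ Fin l)) :
    (s.bdEqual t : lamLang.BoundedFormula (Fin 2) l).IsQF :=
  (BoundedFormula.IsAtomic.equal _ _).isQF

lemma matrixF_qf : matrixF.IsQF := by
  unfold matrixF
  repeat' first
    | exact RR_qf _ _
    | exact eq_qf _ _
    | apply BoundedFormula.IsQF.inf
    | apply BoundedFormula.IsQF.not
    | apply BoundedFormula.IsQF.sup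
    | apply BoundedFormula.IsQF.imp

/-- The formula. -/
def phi : lamLang.Formula (Fin 2) := (matrixF.all).exs

lemma exs_EF {L : FirstOrder.Language.{0, 0}} {α : Type} : ∀ {l : ℕ} (φ : L.BoundedFormula α l),
    IsExistsForall φ → IsExistsForall (φ.exs : L.BoundedFormula α 0)
  | 0, _, h => h
  | _ + 1, φ, h => exs_EF φ.ex h.ex

lemma phi_EF : IsExistsForall (phi : lamLang.BoundedFormula (Fin 2) 0) :=
  exs_EF _ (IsExistsForall.of_isUniversal (matrixF_qf.isUniversal.all))

lemma realize_RR {F : Type u} [Field F] {n l : ℕ} (v : Fin 2 → Fin n → F) (xs : Fin l → Fin n → F)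
    (s t : lamLang.Term (Fin 2 ⊕ Fin l)) :
    letI := lamStructure F n
    (RR s t).Realize v xs ↔
      Lightlike (s.realize (Sum.elim v xs)) (t.realize (Sum.elim v xs)) := by
  letI := lamStructure F n
  unfold RR
  rw [BoundedFormula.realize_rel₂]
  rfl

lemma realize_matrixF {F : Type u} [Field F] {n : ℕ} (x y : Fin n → F) (xs : Fin 11 → Fin n → F)
    (v : Fin n → F) :
    letI := lamStructure F n
    matrixF.Realize ![x, y] (Fin.snoc (α := fun _ => Fin n → F) xs v : Fin 12 → Fin n → F) ↔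
      Good x y (xs 0) (xs 1) (xs 2) (xs 3) (xs 4) (xs 5) (xs 6) (xs 7) (xs 8) (xs 9) (xs 10) v := by
  letI := lamStructure F n
  have h0 : (Fin.snoc (α := fun _ => Fin n → F) xs v : Fin 12 → Fin n → F) 0 = xs 0 := rfl
  have h1 : (Fin.snoc (α := fun _ => Fin n → F) xs v : Fin 12 → Fin n → F) 1 = xs 1 := rfl
  have h2 : (Fin.snoc (α := fun _ => Fin n → F) xs v : Fin 12 → Fin n → F) 2 = xs 2 := rfl
  have h3 : (Fin.snoc (α := fun _ => Fin n → F) xs v : Fin 12 → Fin n → F) 3 = xs 3 := rfl
  have h4 : (Fin.snoc (α := fun _ => Fin n → F) xs v : Fin 12 → Fin n → F) 4 = xs 4 := rfl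
  have h5 : (Fin.snoc (α := fun _ => Fin n → F) xs v : Fin 12 → Fin n → F) 5 = xs 5 := rfl
  have h6 : (Fin.snoc (α := fun _ => Fin n → F) xs v : Fin 12 → Fin n → F) 6 = xs 6 := rfl
  have h7 : (Fin.snoc (α := fun _ => Fin n → F) xs v : Fin 12 → Fin n → F) 7 = xs 7 := rfl
  have h8 : (Fin.snoc (α := fun _ => Fin n → F) xs v : Fin 12 → Fin n → F) 8 = xs 8 := rfl
  have h9 : (Fin.snoc (α := fun _ => Fin n → F) xs v : Fin 12 → Fin n → F) 9 = xs 9 := rfl
  have h10 : (Fin.snoc (α := fun _ => Fin n → F) xs v : Fin 12 → Fin n → F) 10 = xs 10 := rfl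
  have h11 : (Fin.snoc (α := fun _ => Fin n → F) xs v : Fin 12 → Fin n → F) 11 = v := rfl
  unfold matrixF Good
  simp only [BoundedFormula.realize_inf, BoundedFormula.realize_sup, BoundedFormula.realize_not,
    BoundedFormula.realize_imp, BoundedFormula.realize_bdEqual, realize_RR, Term.realize_var,
    Sum.elim_inl, Sum.elim_inr, h0, h1, h2, h3, h4, h5, h6, h7, h8, h9, h10, h11,
    Matrix.cons_val_zero, Matrix.cons_val_one, ne_eq]

theorem realize_phi {F : Type u} [Field F] {n : ℕ} (x y : Fin n → F) :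
    letI := lamStructure F n
    phi.Realize ![x, y] ↔ ∃ w x' A A' C C' B1 B2 B3 B4 z : Fin n → F,
      ∀ v, Good x y w x' A A' C C' B1 B2 B3 B4 z v := by
  letI := lamStructure F n
  unfold phi
  rw [BoundedFormula.realize_exs]
  simp only [BoundedFormula.realize_all]
  constructor
  · rintro ⟨xs, h⟩
    exact ⟨xs 0, xs 1, xs 2, xs 3, xs 4, xs 5, xs 6, xs 7, xs 8, xs 9, xs 10,
      fun v => (realize_matrixF x y xs v).1 (h v)⟩
  · rintro ⟨w, x', A, A', C, C', B1, B2, B3, B4, z, h⟩
    exact ⟨![w, x', A, A', C, C', B1, B2, B3, B4, z],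
      fun v => (realize_matrixF x y _ v).2 (h v)⟩

/-- Main theorem. -/
theorem main : ∃ φ : lamLang.Formula (Fin 2),
    IsExistsForall (φ : lamLang.BoundedFormula (Fin 2) 0) ∧
    ∀ n : ℕ, 3 ≤ n → ∀ (F : Type u) [Field F] [LinearOrder F] [IsStrictOrderedRing F],
      (∀ a : F, 0 ≤ a → ∃ b : F, b * b = a) → ∀ x y : Fin n → F,
        (letI := lamStructure F n; φ.Realize ![x, y]) ↔ 0 < mu x y := by
  refine ⟨phi, phi_EF, fun n hn F _ _ _ hE x y => ?_⟩
  haveI : NeZero n := ⟨by omega⟩
  rw [realize_phi]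
  constructor
  · rintro ⟨w, x', A, A', C, C', B1, B2, B3, B4, z, h⟩
    exact sound h
  · exact fun h => complete hn hE h

end Formulas

end Pool.Agent.Q199.Mink
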